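import Pool.Agent.helper73.BRZ.Spec

/-!
# Project brz, row LSC: the Dirichlet series of `cc d`
-/

set_option autoImplicit false

namespace Pool.Agent.BRZ

theorem LSC_term (d : ℕ) (s : ℂ) :
    LSeries.term (fun w : ℕ => ((w : ℂ) ^ d)) s = LSeries.term 1 (s - d) := by
  funext n
  rcases Nat.eq_zero_or_pos n with rfl | hn
  · rw [LSeries.term_zero, LSeries.term_zero]
  · have hn' : (n : ℂ) ≠ 0 := by exact_mod_cast hn.ne'
    rw [LSeries.term_of_ne_zero hn.ne', LSeries.term_of_ne_zero hn.ne', Pi.one_apply,
      Complex.cpow_sub _ _ hn', Complex.cpow_natCast, one_div_div]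

theorem LSC_pow (d : ℕ) (s : ℂ) (h : ((d + 1 : ℕ) : ℝ) < s.re) :
    LSeriesSummable (fun w : ℕ => ((w : ℂ) ^ d)) s ∧
      LSeries (fun w : ℕ => ((w : ℂ) ^ d)) s = riemannZeta (s - d) := by
  have h1 : 1 < (s - d).re := by
    rw [Complex.sub_re, Complex.natCast_re]
    push_cast at h
    linarith
  constructor
  · unfold LSeriesSummable
    rw [LSC_term]
    exact (LSeriesSummable_one_iff.2 h1)
  · unfold LSeries
    rw [LSC_term]
    exact LSeries_one_eq_riemannZeta h1

theorem LSC : LSC_stmt := by
  intro d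
  induction d with
  | zero =>
    intro s _
    have h1 : (fun w => ((cc 0 w : ℕ) : ℂ)) = LSeries.delta := by
      funext w
      simp only [cc, LSeries.delta]
      split_ifs <;> simp
    rw [h1]
    refine ⟨?_, ?_⟩
    · unfold LSeriesSummable
      apply summable_of_ne_finset_zero (s := {1})
      intro n hn
      rw [Finset.mem_singleton] at hn
      rcases Nat.eq_zero_or_pos n with rfl | h0
      · exact LSeries.term_zero _ _
      · rw [LSeries.term_of_ne_zero h0.ne', LSeries.delta, if_neg hn, zero_div]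
    · rw [LSeries_delta]
      simp
  | succ d ih =>
    intro s hs
    have hs' : (d : ℝ) < s.re := by
      push_cast at hs
      linarith
    obtain ⟨ih1, ih2⟩ := ih s hs'
    obtain ⟨p1, p2⟩ := LSC_pow d s hs
    have h1 : (fun w => ((cc (d + 1) w : ℕ) : ℂ)) =
        LSeries.convolution (fun w => ((cc d w : ℕ) : ℂ)) (fun w : ℕ => ((w : ℂ) ^ d)) := by
      funext w
      rw [LSeries.convolution_def]
      simp only [cc]
      push_cast
      rfl
    rw [h1]
    refine ⟨ih1.convolution p1, ?_⟩
    rw [LSeries_convolution' ih1 p1, ih2, p2, Finset.prod_range_succ]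

end Pool.Agent.BRZ
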